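import Pool.Agent.TH742.HP.Dist

set_option autoImplicit false

/-!
Every `α` which is good for `t` is larger than `1 - 1/(2t)`.
-/

namespace Pool.Agent.U456.HP

open Pool.Agent.TH742.HP

/-- A set of positions with pairwise cyclic distance larger than `t` has at most `n / (t + 1)`
elements. -/
lemma sparse_card {n t : ℕ} [NeZero n] (J : Finset (ZMod n)) (ht : t < n)
    (hJ : ∀ i ∈ J, ∀ j ∈ J, i ≠ j → t < cdist i j) : J.card * (t + 1) ≤ n := by
  classical
  have hinj : Set.InjOn (fun p : ZMod n × ℕ => p.1 + (p.2 : ZMod n))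
      ((J ×ˢ Finset.range (t + 1) : Finset (ZMod n × ℕ)) : Set (ZMod n × ℕ)) := by
    rintro ⟨i, a⟩ h1 ⟨j, b⟩ h2 h
    simp only [Finset.coe_product, Set.mem_prod, Finset.mem_coe, Finset.mem_range] at h1 h2
    simp only at h
    have key : ∀ (i j : ZMod n) (a b : ℕ), i ∈ J → j ∈ J → a ≤ b → b < t + 1 →
        i + (a : ZMod n) = j + (b : ZMod n) → i = j ∧ a = b := by
      intro i j a b hi hj hab hb h
      have h3 : i = j + ((b - a : ℕ) : ZMod n) := by
        rw [Nat.cast_sub hab]
        linear_combination h
      have h4 : i = j := by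
        by_contra hne
        have h5 := hJ j hj i hi (Ne.symm hne)
        have h6 := cdist_add_nat_le j (b - a)
        rw [← h3] at h6
        omega
      refine ⟨h4, ?_⟩
      rw [← h4] at h3
      have h7 : ((b - a : ℕ) : ZMod n) = 0 := left_eq_add.mp h3
      rw [ZMod.natCast_eq_zero_iff] at h7
      have := Nat.eq_zero_of_dvd_of_lt h7 (by omega)
      omega
    rcases le_total a b with hab | hab
    · obtain ⟨e1, e2⟩ := key i j a b h1.1 h2.1 hab h2.2 h
      rw [e1, e2]
    · obtain ⟨e1, e2⟩ := key j i b a h2.1 h1.1 hab h1.2 h.symm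
      rw [e1, e2]
  have h1 := Finset.card_le_card_of_injOn (t := (Finset.univ : Finset (ZMod n))) _
    (fun _ _ => Finset.mem_univ _) hinj
  rw [Finset.card_product, Finset.card_range, Finset.card_univ, ZMod.card] at h1
  exact h1

/-- The graph `C_n^k` without the edges inside the set `I`. -/
def cutGraph (n k : ℕ) (I : Set (ZMod n)) : SimpleGraph (ZMod n) where
  Adj u w := (cyclePow n k).Adj u w ∧ ¬ (u ∈ I ∧ w ∈ I)
  symm := ⟨fun _ _ h => ⟨h.1.symm, fun h' => h.2 ⟨h'.2, h'.1⟩⟩⟩
  loopless := ⟨fun _ h => h.1.ne rfl⟩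

lemma no_pow {n k t : ℕ} [NeZero n] (I : Finset (ZMod n)) (ht : t < n)
    (hI : n < I.card * (t + 1)) : ¬ HasHamPow t (cutGraph n k (I : Set (ZMod n))) := by
  classical
  rintro ⟨v, hv⟩
  set J : Finset (ZMod n) := I.image v.symm with hJ
  have hc : J.card = I.card := Finset.card_image_of_injective _ v.symm.injective
  have h1 := sparse_card J ht (by
    intro i hi j hj hij
    by_contra hle
    have h2 := hv i j hij (by omega)
    rw [hJ, Finset.mem_image] at hi hj
    obtain ⟨a, ha, rfl⟩ := hi
    obtain ⟨b, hb, rfl⟩ := hj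
    rw [v.apply_symm_apply, v.apply_symm_apply] at h2
    exact h2.2 ⟨by exact_mod_cast ha, by exact_mod_cast hb⟩)
  rw [hc] at h1
  omega

/-- The main construction: `k = t q`, `n = 2 (k + q + 1)`, `I` consists of two intervals with
`q + 1` elements. -/
lemma bad_graph (t q : ℕ) (ht : 1 ≤ t) (hq : 1 ≤ q) : ∃ H : SimpleGraph (ZMod (2 * (t * q + q + 1))),
    (∀ α : ℝ, α ≤ 1 - 1 / (2 * (t : ℝ)) →
      IsAlphaSubgraph α (cyclePow (2 * (t * q + q + 1)) (t * q)) H) ∧ ¬ HasHamPow t H := by
  classical
  set k : ℕ := t * q with hk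
  set n : ℕ := 2 * (k + q + 1) with hn
  have hn0 : NeZero n := ⟨by omega⟩
  have hkq : q ≤ k := by rw [hk]; exact Nat.le_mul_of_pos_left _ ht
  have htk : t ≤ k := by rw [hk]; exact Nat.le_mul_of_pos_right _ hq
  set I : Finset (ZMod n) := Finset.univ.filter
    (fun x => x.val ≤ q ∨ (k + q + 1 ≤ x.val ∧ x.val ≤ k + 2 * q + 1)) with hI
  -- the size of `I`
  have hIcard : 2 * (q + 1) ≤ I.card := by
    have h1 : ((Finset.range (q + 1)).image (fun s : ℕ => (s : ZMod n))) ∪
        ((Finset.Icc (k + q + 1) (k + 2 * q + 1)).image (fun s : ℕ => (s : ZMod n))) ⊆ I := by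
      intro x hx
      rw [Finset.mem_union, Finset.mem_image, Finset.mem_image] at hx
      rw [hI, Finset.mem_filter]
      refine ⟨Finset.mem_univ _, ?_⟩
      rcases hx with ⟨s, hs, rfl⟩ | ⟨s, hs, rfl⟩
      · rw [Finset.mem_range] at hs
        left
        rw [ZMod.val_natCast, Nat.mod_eq_of_lt (by omega)]
        omega
      · rw [Finset.mem_Icc] at hs
        right
        rw [ZMod.val_natCast, Nat.mod_eq_of_lt (by omega)]
        omega
    have hcast : Set.InjOn (fun s : ℕ => (s : ZMod n)) {s | s < n} := by
      intro a ha b hb hab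
      simp only [Set.mem_ofPred_eq] at ha hb
      have h2 := congrArg ZMod.val hab
      simp only [ZMod.val_natCast] at h2
      rwa [Nat.mod_eq_of_lt ha, Nat.mod_eq_of_lt hb] at h2
    have h2 := Finset.card_le_card h1
    rw [Finset.card_union_of_disjoint] at h2
    · rw [Finset.card_image_of_injOn (hcast.mono (fun s hs => by
        simp only [Finset.coe_range, Set.mem_Iio] at hs
        simp only [Set.mem_ofPred_eq]; omega)),
        Finset.card_image_of_injOn (hcast.mono (fun s hs => by
        simp only [Finset.coe_Icc, Set.mem_Icc] at hs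
        simp only [Set.mem_ofPred_eq]; omega)), Finset.card_range, Nat.card_Icc] at h2
      omega
    · rw [Finset.disjoint_left]
      intro x hx hx2
      rw [Finset.mem_image] at hx hx2
      obtain ⟨a, ha, rfl⟩ := hx
      obtain ⟨b, hb, hab⟩ := hx2
      rw [Finset.mem_range] at ha
      rw [Finset.mem_Icc] at hb
      have := hcast (show b < n by omega) (show a < n by omega) hab
      omega
  refine ⟨cutGraph n k (I : Set (ZMod n)), ?_, no_pow I (by omega) (by
    calc n < 2 * (q + 1) * (t + 1) := by
          rw [hn, hk]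
          nlinarith
      _ ≤ I.card * (t + 1) := Nat.mul_le_mul_right _ hIcard)⟩
  intro α hα
  refine ⟨fun _ _ h => h.1, fun v => ?_⟩
  set S : Set (ZMod n) := {w | w ∈ I ∧ w ≠ v ∧ cdist v w ≤ k ∧ v ∈ I} with hS
  -- at most `q` edges are lost
  have hlost : S.ncard ≤ q := by
    by_cases hvI : v ∈ I
    · -- the elements of `I` close to `v` are in the same interval
      have hsame : S ⊆ ((((Finset.range (q + 1)).image (fun s : ℕ =>
          (((if v.val ≤ q then 0 else k + q + 1) + s : ℕ) : ZMod n))).erase v : Finset (ZMod n)) :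
            Set (ZMod n)) := by
        intro w hw
        obtain ⟨hwI, hwv, hd, -⟩ := hw
        rw [Finset.mem_coe, Finset.mem_erase, Finset.mem_image]
        refine ⟨hwv, w.val - (if v.val ≤ q then 0 else k + q + 1), ?_, ?_⟩
        all_goals
          rw [hI, Finset.mem_filter] at hvI hwI
          have h1 := hvI.2
          have h2 := hwI.2
          have h3 : v.val ≠ w.val := fun h => hwv (ZMod.val_injective n h).symm
          have hd' : v.val < w.val → min (n - (w.val - v.val)) (w.val - v.val) ≤ k := by
            intro h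
            rw [← cdist_eq h]
            exact hd
          have hd'' : w.val < v.val → min (n - (v.val - w.val)) (v.val - w.val) ≤ k := by
            intro h
            rw [← cdist_eq h, cdist_comm]
            exact hd
          have hcase : (v.val ≤ q ↔ w.val ≤ q) := by
            rcases Nat.lt_or_gt_of_ne h3 with h | h
            · have := hd' h
              omega
            · have := hd'' h
              omega
        · rw [Finset.mem_range]
          by_cases hv : v.val ≤ q
          · rw [if_pos hv]
            have := hcase.1 hv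
            omega
          · rw [if_neg hv]
            have : ¬ w.val ≤ q := fun h => hv (hcase.2 h)
            omega
        · have h4 : (if v.val ≤ q then 0 else k + q + 1) +
              (w.val - (if v.val ≤ q then 0 else k + q + 1)) = w.val := by
            by_cases hv : v.val ≤ q
            · rw [if_pos hv]
              omega
            · rw [if_neg hv]
              have : ¬ w.val ≤ q := fun h => hv (hcase.2 h)
              omega
          rw [h4, ZMod.natCast_zmod_val]
      have hmem : v ∈ ((Finset.range (q + 1)).image (fun s : ℕ =>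
          (((if v.val ≤ q then 0 else k + q + 1) + s : ℕ) : ZMod n))) := by
        rw [Finset.mem_image]
        rw [hI, Finset.mem_filter] at hvI
        have h1 := hvI.2
        by_cases hv : v.val ≤ q
        · refine ⟨v.val, by rw [Finset.mem_range]; omega, ?_⟩
          rw [if_pos hv, Nat.zero_add, ZMod.natCast_zmod_val]
        · refine ⟨v.val - (k + q + 1), by rw [Finset.mem_range]; omega, ?_⟩
          rw [if_neg hv]
          have : k + q + 1 + (v.val - (k + q + 1)) = v.val := by omega
          rw [this, ZMod.natCast_zmod_val]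
      calc S.ncard ≤ _ := Set.ncard_le_ncard hsame (Set.toFinite _)
        _ = _ := Set.ncard_coe_finset _
        _ ≤ q := by
          rw [Finset.card_erase_of_mem hmem]
          have := Finset.card_image_le (s := Finset.range (q + 1)) (f := (fun s : ℕ =>
            (((if v.val ≤ q then 0 else k + q + 1) + s : ℕ) : ZMod n)))
          rw [Finset.card_range] at this
          omega
    · have : S = ∅ := by
        ext w
        simp only [hS, Set.mem_ofPred_eq, Set.mem_empty_iff_false, iff_false]
        rintro ⟨-, -, -, h⟩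
        exact hvI h
      rw [this, Set.ncard_empty]
      exact Nat.zero_le _
  have hsplit : ((cyclePow n k).neighborSet v).ncard ≤
      ((cutGraph n k (I : Set (ZMod n))).neighborSet v).ncard + S.ncard := by
    refine le_trans (Set.ncard_le_ncard ?_ (Set.toFinite _)) (Set.ncard_union_le _ _)
    intro w hw
    by_cases h : v ∈ I ∧ w ∈ I
    · right
      exact ⟨h.2, fun h' => hw.1 h'.symm, hw.2, h.1⟩
    · left
      exact ⟨hw, fun h' => h ⟨by exact_mod_cast h'.1, by exact_mod_cast h'.2⟩⟩
  have hdeg : 2 * k ≤ ((cyclePow n k).neighborSet v).ncard := two_mul_le_deg (by omega) v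
  have hdR : (2 * (k : ℝ)) ≤ (((cyclePow n k).neighborSet v).ncard : ℝ) := by exact_mod_cast hdeg
  have hsR : (((cyclePow n k).neighborSet v).ncard : ℝ) ≤
      (((cutGraph n k (I : Set (ZMod n))).neighborSet v).ncard : ℝ) + (q : ℝ) := by
    have : ((cyclePow n k).neighborSet v).ncard ≤
      ((cutGraph n k (I : Set (ZMod n))).neighborSet v).ncard + q := by omega
    exact_mod_cast this
  have htR : (1 : ℝ) ≤ t := by exact_mod_cast ht
  have hkR : (k : ℝ) = t * q := by rw [hk]; push_cast; ring
  have hloss : (q : ℝ) ≤ 1 / (2 * (t : ℝ)) * (((cyclePow n k).neighborSet v).ncard : ℝ) := by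
    have h1 : (q : ℝ) = 1 / (2 * (t : ℝ)) * (2 * (k : ℝ)) := by
      rw [hkR]; field_simp
    rw [h1]
    exact mul_le_mul_of_nonneg_left hdR (by positivity)
  calc α * (((cyclePow n k).neighborSet v).ncard : ℝ) ≤
      (1 - 1 / (2 * (t : ℝ))) * (((cyclePow n k).neighborSet v).ncard : ℝ) :=
        mul_le_mul_of_nonneg_right hα (Nat.cast_nonneg _)
    _ = (((cyclePow n k).neighborSet v).ncard : ℝ) -
        1 / (2 * (t : ℝ)) * (((cyclePow n k).neighborSet v).ncard : ℝ) := by ring
    _ ≤ _ := by linarith

theorem lower (t : ℕ) (ht : 1 ≤ t) (α : ℝ) (h : Good t α) : 1 - 1 / (2 * (t : ℝ)) < α := by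
  by_contra hle
  rw [not_lt] at hle
  obtain ⟨k₀, hk⟩ := h
  obtain ⟨H, h1, h2⟩ := bad_graph t (k₀ + 1) ht (by omega)
  refine h2 (hk (t * (k₀ + 1)) _ ?_ ?_ ?_ H (h1 α hle))
  · calc k₀ ≤ 1 * (k₀ + 1) := by omega
      _ ≤ t * (k₀ + 1) := Nat.mul_le_mul_right _ ht
  · omega
  · omega

end Pool.Agent.U456.HP
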